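import Pool.Agent.H938R3.HT.All

/-!
# Thin Hindman theorem and Ramsey type theorems: the core with infinitely many colours

Variant of `Pool.Agent.H938R3.HT.core` (which has two colours): the counter of the greedy block
decomposition takes all large values along every chain.
-/

set_option autoImplicit false

namespace Pool.Agent.R455.GP

open Pool.Agent.H938R3.HT Pool.Agent.H410R3.HTC

/-- union of the first `k + 1` sets -/
def Gu (E : ℕ → Finset ℕ) (k : ℕ) : Finset ℕ := (Finset.range (k + 1)).biUnion E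

theorem Gu_succ (E : ℕ → Finset ℕ) (k : ℕ) : Gu E (k + 1) = Gu E k ∪ E (k + 1) := by
  simp only [Gu]
  rw [Finset.range_add_one (n := k + 1), Finset.biUnion_insert, Finset.union_comm]

theorem Gu_zero (E : ℕ → Finset ℕ) : Gu E 0 = E 0 := by
  simp [Gu]

section
variable {Sm : Finset ℕ → Prop}
  (hdown : ∀ σ τ : Finset ℕ, τ ⊆ σ → τ.Nonempty → Sm σ → Sm τ)
  (hZ : ∀ Z : Set ℕ, Z.Infinite → ∃ σ : Finset ℕ, σ.Nonempty ∧ (∀ i ∈ σ, i ∈ Z) ∧ ¬ Sm σ)
  {E : ℕ → Finset ℕ} (hne : ∀ k, (E k).Nonempty)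
  (hlt : ∀ k, ∀ i ∈ E k, ∀ j ∈ E (k + 1), i < j) (hSm : ∀ k, Sm (E (k + 1)))

include hne hlt in
theorem mono_E : ∀ k m, m ≤ k → ∀ i ∈ E m, ∀ j ∈ E (k + 1), i < j := by
  intro k
  induction k with
  | zero =>
    intro m hm i hi j hj
    obtain rfl : m = 0 := by omega
    exact hlt 0 i hi j hj
  | succ k ih =>
    intro m hm i hi j hj
    rcases Nat.lt_or_ge m (k + 1) with h | h
    · obtain ⟨x, hx⟩ := hne (k + 1)
      exact (ih m (by omega) i hi x hx).trans (hlt (k + 1) x hx j hj)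
    · obtain rfl : m = k + 1 := by omega
      exact hlt (k + 1) i hi j hj

include hne hlt in
theorem lt_Gu (k : ℕ) : ∀ i ∈ Gu E k, ∀ j ∈ E (k + 1), i < j := by
  intro i hi j hj
  simp only [Gu, Finset.mem_biUnion, Finset.mem_range] at hi
  obtain ⟨m, hm, him⟩ := hi
  exact mono_E hne hlt k m (by omega) i him j hj

include hne hlt in
theorem st_succ (k : ℕ) : st Sm (Gu E (k + 1)) =
    ((E (k + 1)).sort (· ≤ ·)).foldl (stp Sm) (st Sm (Gu E k)) := by
  unfold st
  rw [Gu_succ, sort_union _ _ (lt_Gu hne hlt k), List.foldl_append]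

include hdown hne hlt hSm in
theorem step (k : ℕ) : ((st Sm (Gu E (k + 1))).2 = (st Sm (Gu E k)).2 ∧
    (st Sm (Gu E (k + 1))).1 = (st Sm (Gu E k)).1 ∪ E (k + 1) ∧ Sm ((st Sm (Gu E (k + 1))).1)) ∨
      (st Sm (Gu E (k + 1))).2 = (st Sm (Gu E k)).2 + 1 := by
  have h2 := fold_block Sm hdown (E (k + 1)) (hSm k) ((E (k + 1)).sort (· ≤ ·))
    (st Sm (Gu E k)).1 (st Sm (Gu E k)).2 (fun n hn => (Finset.mem_sort _).1 hn)
  rw [Prod.mk.eta, ← st_succ hne hlt k] at h2
  rw [Finset.sort_toFinset] at h2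
  have hnil : (E (k + 1)).sort (· ≤ ·) ≠ [] := by
    intro h
    obtain ⟨x, hx⟩ := hne (k + 1)
    have : x ∈ (E (k + 1)).sort (· ≤ ·) := (Finset.mem_sort _).2 hx
    rw [h] at this
    simp at this
  rcases h2 with ⟨h1, h3, h4⟩ | h2
  · exact Or.inl ⟨h1, h3, by rw [h3]; exact h4 hnil⟩
  · exact Or.inr h2

include hdown hZ hne hlt hSm in
theorem exists_inc : ∃ k, (st Sm (Gu E (k + 1))).2 = (st Sm (Gu E k)).2 + 1 := by
  by_contra hcon
  push Not at hcon
  have hstep : ∀ k, (st Sm (Gu E (k + 1))).1 = (st Sm (Gu E k)).1 ∪ E (k + 1) ∧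
      Sm ((st Sm (Gu E (k + 1))).1) := fun k =>
    (step hdown hne hlt hSm k).elim (fun h => h.2) fun h => absurd h (hcon k)
  have hsub : ∀ k m, m < k → E (m + 1) ⊆ (st Sm (Gu E k)).1 := by
    intro k
    induction k with
    | zero => intro m hm; omega
    | succ k ih =>
      intro m hm
      rw [(hstep k).1]
      rcases Nat.lt_or_ge m k with h | h
      · exact (ih m h).trans Finset.subset_union_left
      · obtain rfl : m = k := by omega
        exact Finset.subset_union_right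
  let Z : Set ℕ := {i | ∃ m, i ∈ E (m + 1)}
  have hZinf : Z.Infinite := by
    refine Set.infinite_of_not_bddAbove ?_
    rintro ⟨B, hB⟩
    have hgrow : ∀ m, ∀ i ∈ E (m + 1), m ≤ i := by
      intro m
      induction m with
      | zero => intro i _; omega
      | succ m ih =>
        intro i hi
        obtain ⟨x, hx⟩ := hne (m + 1)
        have h1 := ih x hx
        have h2 := hlt (m + 1) x hx i hi
        omega
    obtain ⟨x, hx⟩ := hne (B + 1 + 1)
    have h1 := hgrow (B + 1) x hx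
    have h2 : x ≤ B := hB ⟨B + 1, hx⟩
    omega
  obtain ⟨σ, hσ1, hσ2, hσ3⟩ := hZ Z hZinf
  have hK : ∃ K, ∀ i ∈ σ, ∃ m < K, i ∈ E (m + 1) := by
    choose! f hf using hσ2
    refine ⟨σ.sup f + 1, fun i hi => ⟨f i, ?_, hf i hi⟩⟩
    exact Nat.lt_succ_of_le (Finset.le_sup hi)
  obtain ⟨K, hK⟩ := hK
  have hσK : σ ⊆ (st Sm (Gu E (K + 1))).1 := by
    intro i hi
    obtain ⟨m, hm, him⟩ := hK i hi
    exact hsub (K + 1) m (by omega) him
  exact hσ3 (hdown _ σ hσK hσ1 (hstep K).2)

include hdown hZ hne hlt hSm in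
theorem exists_next (k₀ : ℕ) : ∃ k, (st Sm (Gu E k)).2 = (st Sm (Gu E k₀)).2 + 1 := by
  by_contra hcon
  push Not at hcon
  have hconst : ∀ m, (st Sm (Gu E (k₀ + m))).2 = (st Sm (Gu E k₀)).2 := by
    intro m
    induction m with
    | zero => rfl
    | succ m ih =>
      rcases step hdown hne hlt hSm (k₀ + m) with h | h
      · rw [← ih]; exact h.1
      · rw [ih] at h
        exact absurd h (hcon _)
  -- the shifted sequence
  let E' : ℕ → Finset ℕ := fun k => Nat.casesOn k (Gu E k₀) fun k => E (k₀ + k + 1)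
  have hG' : ∀ m, Gu E' m = Gu E (k₀ + m) := by
    intro m
    induction m with
    | zero => rw [Gu_zero]; rfl
    | succ m ih =>
      rw [Gu_succ, ih]
      show Gu E (k₀ + m) ∪ E (k₀ + m + 1) = Gu E (k₀ + m + 1)
      rw [Gu_succ]
  obtain ⟨m, hm⟩ := exists_inc (E := E') hdown hZ (by
      intro k
      cases k with
      | zero =>
        obtain ⟨x, hx⟩ := hne 0
        exact ⟨x, Finset.mem_biUnion.2 ⟨0, Finset.mem_range.2 (by omega), hx⟩⟩
      | succ k => exact hne _)
    (by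
      intro k i hi j hj
      cases k with
      | zero => exact lt_Gu hne hlt k₀ i hi j hj
      | succ k => exact hlt (k₀ + k + 1) i hi j hj)
    (by intro k; exact hSm (k₀ + k))
  rw [hG', hG', hconst, hconst] at hm
  omega

include hdown hZ hne hlt hSm in
/-- All large values of the counter occur. -/
theorem exists_value : ∀ v, (st Sm (Gu E 0)).2 ≤ v → ∃ k, (st Sm (Gu E k)).2 = v := by
  intro v hv
  obtain ⟨d, rfl⟩ := Nat.exists_eq_add_of_le hv
  clear hv
  induction d with
  | zero => exact ⟨0, rfl⟩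
  | succ d ih =>
    obtain ⟨k, hk⟩ := ih
    obtain ⟨k', hk'⟩ := exists_next hdown hZ hne hlt hSm k
    exact ⟨k', by rw [hk', hk]; rfl⟩

end

/-- The core theorem with infinitely many colours. -/
def CoreInf : Prop := ∀ V : Fam, Good V → ∃ X : Set ℕ, X.Infinite ∧ ∃ c : Finset ℕ → ℕ,
  ∀ e : ℕ, ∀ Y : Set ℕ, Y ⊆ X → Y.Infinite → (∀ t, ∃ h, V e t Y h) →
    ∀ v, ∃ G, Chain V e Y G ∧ c G = v

open BuildT in
theorem coreInf : CoreInf := by
  classical
  intro V hV
  obtain ⟨x, hx, hd, ht⟩ := part1_of gs_spec thin Pool.Agent.H224R3.HT.trace V hV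
  have hdown : ∀ σ τ : Finset ℕ, τ ⊆ σ → τ.Nonempty → Small V x σ → Small V x τ := by
    intro σ τ hτσ _ hσ
    obtain ⟨e, q, h1, A, hA, h, h2, h3⟩ := hσ
    exact ⟨e, q, fun i hi => h1 i (hτσ hi), A, hA, h, h2, hτσ.trans h3⟩
  have hfr := front cpt V hV x hx hd ht
  refine ⟨Set.range x, Set.infinite_range_of_injective hx.injective,
    fun F => (st (Small V x) (EE x F)).2.unpair.1, ?_⟩
  intro e Y hYx hY htot
  choose h hh using htot
  set A : Set ℕ := {i | x i ∈ Y} with hA
  have hAY : x '' A = Y := by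
    ext y
    constructor
    · rintro ⟨i, hi, rfl⟩
      exact hi
    · intro hy
      obtain ⟨i, rfl⟩ := hYx hy
      exact ⟨i, hy, rfl⟩
  have hAinf : A.Infinite := by
    intro hfin
    apply hY
    rw [← hAY]
    exact hfin.image _
  have hgt : ∀ t, ∀ j ∈ h t, t < j := fun t => hV.gt (hh t)
  have hne : ∀ t, (h t).Nonempty := fun t => hV.ne (hh t)
  have hee := Pool.Agent.H3R3.HT.ee
  have hstep : ∀ k, EE x (GG x h e k ∪ HH x h e (k + 1)) =
      EE x (GG x h e k) ∪ EE x (HH x h e (k + 1)) ∧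
      (∀ i ∈ EE x (GG x h e k), i ≤ pk e (GG x h e k)) ∧
      (∀ j ∈ EE x (HH x h e (k + 1)), pk e (GG x h e k) + 2 ≤ j) ∧
      (EE x (HH x h e (k + 1))).Nonempty := fun k =>
    hee x hx (pk e (GG x h e k)) (GG x h e k) (HH x h e (k + 1)) (hne _) (le_pk hx e _) (hgt _)
  have hG : ∀ k, EE x (GG x h e k) = Gu (fun k => EE x (HH x h e k)) k := by
    intro k
    induction k with
    | zero => simp [GG, HH, Gu]
    | succ k ih =>
      rw [Gu_succ, ← ih]
      exact (hstep k).1
  have hsub : ∀ k, EE x (HH x h e k) ⊆ EE x (GG x h e k) := by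
    intro k
    rw [hG]
    exact Finset.subset_biUnion_of_mem (fun k => EE x (HH x h e k)) (by simp)
  have hval := exists_value (Sm := Small V x) (E := fun k => EE x (HH x h e k)) hdown hfr
    (by
      intro k
      cases k with
      | zero =>
        exact (hee x hx e ∅ (HH x h e 0) (hne _) (by simp) (hgt _)).2.2.2
      | succ k => exact (hstep k).2.2.2)
    (by
      intro k i hi j hj
      have h1 := (hstep k).2.1 i (hsub k hi)
      have h2 := (hstep k).2.2.1 j hj
      omega)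
    (by
      intro k
      refine ⟨e, pk e (GG x h e k) + 1, ?_, A, hAinf, HH x h e (k + 1), ?_, subset_rfl⟩
      · intro i hi
        have h2 := (hstep k).2.2.1 i hi
        have h3 : e ≤ pk e (GG x h e k) := le_max_left _ _
        omega
      · rw [hAY]
        exact hh _)
  have hchain : ∀ k, Chain V e Y (GG x h e k) := by
    intro k
    induction k with
    | zero => exact Chain.base _ _ (hh _)
    | succ k ih =>
      refine Chain.step _ (x (pk e (GG x h e k) + 1)) _ ih ?_ (hh _)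
      intro i hi
      exact (le_pk hx e _ i hi).trans (hx.monotone (Nat.le_succ _))
  intro v
  set N := (st (Small V x) (Gu (fun k => EE x (HH x h e k)) 0)).2 with hN
  obtain ⟨k, hk⟩ := hval (Nat.pair v N) (Nat.right_le_pair v N)
  refine ⟨GG x h e k, hchain k, ?_⟩
  simp only
  rw [hG k, hk, Nat.unpair_pair]

end Pool.Agent.R455.GP
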